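import Pool.Agent.H446.AP10.Fam
import Pool.Agent.H446.AP10.Conv
import Pool.Agent.H446.AP6.Place

/-!
# Leading forms of ideals and reduction modulo primes
-/

set_option autoImplicit false

namespace Pool.Agent.H446.AP15

open Finset MvPolynomial
open Pool.Agent.H446.AP10 (Non Gd conv)
open Pool.Agent.H446.AP4 (pInt)

variable {m : ℕ}

/-- An ideal has `p`-torsion only for finitely many primes. -/
lemma torsion (𝔟 : Ideal (MvPolynomial (Fin m) ℤ)) : ∃ N : ℕ, 0 < N ∧ ∀ p : ℕ, p.Prime → ¬ p ∣ N →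
    ∀ f, (p : MvPolynomial (Fin m) ℤ) * f ∈ 𝔟 → f ∈ 𝔟 := by
  classical
  let 𝔠 : Ideal (MvPolynomial (Fin m) ℤ) :=
    { carrier := {f | ∃ n : ℕ, 0 < n ∧ (n : MvPolynomial (Fin m) ℤ) * f ∈ 𝔟}
      zero_mem' := ⟨1, one_pos, by rw [mul_zero]; exact 𝔟.zero_mem⟩
      add_mem' := by
        rintro a b ⟨n, hn, ha⟩ ⟨k, hk, hb⟩
        refine ⟨n * k, by positivity, ?_⟩
        have h1 : ((n * k : ℕ) : MvPolynomial (Fin m) ℤ) * (a + b) = k * (n * a) + n * (k * b) := by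
          push_cast
          ring
        rw [h1]
        exact 𝔟.add_mem (𝔟.mul_mem_left _ ha) (𝔟.mul_mem_left _ hb)
      smul_mem' := by
        rintro c a ⟨n, hn, ha⟩
        refine ⟨n, hn, ?_⟩
        rw [smul_eq_mul, mul_left_comm]
        exact 𝔟.mul_mem_left _ ha }
  obtain ⟨s, hs⟩ := (isNoetherianRing_iff_ideal_fg _).1 inferInstance 𝔠
  have hmem : ∀ f ∈ s, f ∈ 𝔠 := fun f hf => by
    rw [← hs]
    exact Ideal.subset_span hf
  choose! n hn hn' using fun f hf => (hmem f hf : ∃ n : ℕ, 0 < n ∧ (n : MvPolynomial (Fin m) ℤ) * f ∈ 𝔟)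
  refine ⟨∏ f ∈ s, n f, Finset.prod_pos fun f hf => hn f hf, fun p hp hpN f hf => ?_⟩
  have h1 : ∀ a ∈ 𝔠, ((∏ f ∈ s, n f : ℕ) : MvPolynomial (Fin m) ℤ) * a ∈ 𝔟 := by
    intro a ha
    rw [← hs] at ha
    refine Submodule.span_induction (p := fun a _ => ((∏ f ∈ s, n f : ℕ) : MvPolynomial (Fin m) ℤ) * a ∈ 𝔟)
      (fun a ha => ?_) ?_ (fun a b _ _ ha hb => ?_) (fun c a _ ha => ?_) ha
    · have ha' : a ∈ s := ha
      rw [← Finset.mul_prod_erase s n ha', Nat.cast_mul, mul_comm ((n a : ℕ) : MvPolynomial (Fin m) ℤ), mul_assoc]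
      exact 𝔟.mul_mem_left _ (hn' a ha')
    · rw [mul_zero]
      exact 𝔟.zero_mem
    · rw [mul_add]
      exact 𝔟.add_mem ha hb
    · rw [smul_eq_mul, mul_left_comm]
      exact 𝔟.mul_mem_left _ ha
  have h2 := h1 f ⟨p, hp.pos, hf⟩
  have h3 : IsCoprime (p : ℤ) ((∏ f ∈ s, n f : ℕ) : ℤ) :=
    Int.isCoprime_iff_gcd_eq_one.2 (by
      rw [Int.gcd_natCast_natCast]
      exact (Nat.Prime.coprime_iff_not_dvd hp).2 hpN)
  obtain ⟨u, v, huv⟩ := h3
  have h4 : f = (u : MvPolynomial (Fin m) ℤ) * ((p : MvPolynomial (Fin m) ℤ) * f) +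
      (v : MvPolynomial (Fin m) ℤ) * (((∏ f ∈ s, n f : ℕ) : MvPolynomial (Fin m) ℤ) * f) := by
    have h5 : (u : MvPolynomial (Fin m) ℤ) * (p : MvPolynomial (Fin m) ℤ) +
        (v : MvPolynomial (Fin m) ℤ) * ((∏ f ∈ s, n f : ℕ) : MvPolynomial (Fin m) ℤ) = 1 := by
      have := congrArg (fun n : ℤ => (n : MvPolynomial (Fin m) ℤ)) huv
      simpa using this
    rw [← mul_assoc, ← mul_assoc, ← add_mul, h5, one_mul]
  rw [h4]
  exact 𝔟.add_mem (𝔟.mul_mem_left _ hf) (𝔟.mul_mem_left _ h2)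

/-- Points modulo almost all primes on a variety with a complex point. -/
lemma exists_point {z : Fin m → ℂ} {c : MvPolynomial (Fin m) ℤ} (hc : aeval z c ≠ 0) :
    ∃ N : ℕ, 0 < N ∧ ∀ p : ℕ, p.Prime → ¬ p ∣ N → ∃ (k : Type) (_ : Field k) (_ : CharP k p) (y : Fin m → k),
      (∀ f : MvPolynomial (Fin m) ℤ, aeval z f = 0 → aeval y f = 0) ∧ aeval y c ≠ 0 := by
  classical
  have halg : Algebra.IsAlgebraic ℚ (AlgebraicClosure ℚ) := AlgebraicClosure.isAlgebraic ℚ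
  let ι' : AlgebraicClosure ℚ →ₐ[ℚ] ℂ := IsAlgClosed.lift
  let ι : AlgebraicClosure ℚ →+* ℂ := ι'
  let J : Ideal (MvPolynomial (Fin m) ℚ) := RingHom.ker (eval₂Hom (algebraMap ℚ ℂ) z)
  have hmapJ : ∀ f : MvPolynomial (Fin m) ℤ,
      eval₂Hom (algebraMap ℚ ℂ) z (MvPolynomial.map (Int.castRingHom ℚ) f) = aeval z f := by
    intro f
    rw [coe_eval₂Hom, eval₂_map, aeval_def]
    congr 1
  have h1 : MvPolynomial.map (Int.castRingHom ℚ) c ∉ J.radical := by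
    rintro ⟨n, hn⟩
    have h2 : eval₂Hom (algebraMap ℚ ℂ) z (MvPolynomial.map (Int.castRingHom ℚ) c ^ n) = 0 := hn
    rw [map_pow, hmapJ] at h2
    exact hc (eq_zero_of_pow_eq_zero h2)
  rw [← MvPolynomial.vanishingIdeal_zeroLocus_eq_radical (K := AlgebraicClosure ℚ)] at h1
  rw [MvPolynomial.mem_vanishingIdeal_iff] at h1
  push Not at h1
  obtain ⟨w, hw, hwc⟩ := h1
  have hev : ∀ f : MvPolynomial (Fin m) ℤ, aeval (fun i => ι (w i)) f =
      ι (aeval w (MvPolynomial.map (Int.castRingHom ℚ) f)) := by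
    intro f
    rw [aeval_def, aeval_def, eval₂_map, hom_eval₂]
    congr 1
    exact RingHom.ext_int _ _
  obtain ⟨d, hd, h3⟩ := conv (𝓕 := fun _ => {1}) (𝔞 := RingHom.ker (aeval z : MvPolynomial (Fin m) ℤ →ₐ[ℤ] ℂ))
    (g := c) (ω := fun i => ι (w i)) (fun i => (Algebra.IsAlgebraic.isAlgebraic (R := ℚ) (w i)).algHom ι') (fun f hf => by
      rw [hev]
      have h4 : MvPolynomial.map (Int.castRingHom ℚ) f ∈ J := by
        show eval₂Hom (algebraMap ℚ ℂ) z _ = 0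
        rw [hmapJ]
        exact hf
      rw [hw _ h4, map_zero]) (by
      rw [hev]
      intro h
      exact hwc ((map_eq_zero ι).1 h))
  refine ⟨d, hd, fun p hp hpd => ?_⟩
  have h4 : Non (fun _ => {1}) (RingHom.ker (aeval z : MvPolynomial (Fin m) ℤ →ₐ[ℤ] ℂ)) c p := by
    by_contra hcon
    obtain ⟨hf, -, h5⟩ := h3 p hp hpd hcon
    obtain ⟨y, hy, h6⟩ := h5 1 rfl
    rw [map_one] at h6
    have h7 : ((1 : ℤ) : ℂ) = p * y := by
      rw [Int.cast_one]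
      exact h6
    have h8 := (Pool.Agent.H446.AP6.isPl_pInt p).dvd 1 y hy h7
    exact hp.one_lt.ne' (by exact_mod_cast Int.eq_one_of_dvd_one (Int.natCast_nonneg p) h8)
  obtain ⟨K, i1, i2, y, hy, hyc, -⟩ := h4
  exact ⟨K, i1, i2, y, fun f hf => hy f hf, hyc⟩

end Pool.Agent.H446.AP15
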