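import Pool.Agent.H446.AP15.C1
import Pool.Agent.H446.AP9.Loc

/-!
# The ideal of the leading forms
-/

set_option autoImplicit false

namespace Pool.Agent.H446.AP15

open Finset MvPolynomial
open Pool.Agent.H446.AP10 (Non Gd conv)
open Pool.Agent.H446.AP9 (hc_mul)

variable {m : ℕ}

lemma hc_hc {R : Type*} [CommRing R] (n k : ℕ) (f : MvPolynomial (Fin m) R) :
    homogeneousComponent k (homogeneousComponent n f) = if k = n then homogeneousComponent n f else 0 :=
  homogeneousComponent_of_mem (homogeneousComponent_isHomogeneous n f)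

/-- The components of a product. -/
lemma hc_prod {R : Type*} [CommRing R] (c t : MvPolynomial (Fin m) R) (n : ℕ) : homogeneousComponent n (c * t) =
    ∑ j ∈ range (t.totalDegree + 1), if j ≤ n then homogeneousComponent (n - j) c * homogeneousComponent j t else 0 := by
  have h1 : c * t = ∑ j ∈ range (t.totalDegree + 1), c * homogeneousComponent j t := by
    rw [← Finset.mul_sum, sum_homogeneousComponent]
  rw [h1, map_sum]
  exact Finset.sum_congr rfl fun j _ => hc_mul c (homogeneousComponent_isHomogeneous j t) n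

lemma hc_mul_top {R : Type*} [CommRing R] {f g : MvPolynomial (Fin m) R} {a b : ℕ} (hf : f.totalDegree ≤ a)
    (hg : g.totalDegree ≤ b) : homogeneousComponent (a + b) (f * g) = homogeneousComponent a f * homogeneousComponent b g := by
  rw [hc_prod]
  have h1 : ∀ j ∈ range (g.totalDegree + 1), j ≠ b →
      (if j ≤ a + b then homogeneousComponent (a + b - j) f * homogeneousComponent j g else 0) = 0 := by
    intro j hj hjb
    rw [mem_range] at hj
    rw [if_pos (by omega), homogeneousComponent_eq_zero _ f (by omega), zero_mul]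
  by_cases h2 : b ∈ range (g.totalDegree + 1)
  · rw [Finset.sum_eq_single_of_mem b h2 h1, if_pos (by omega), Nat.add_sub_cancel]
  · rw [Finset.sum_eq_zero fun j hj => h1 j hj fun h => h2 (h ▸ hj)]
    rw [mem_range, not_lt] at h2
    rw [homogeneousComponent_eq_zero b g (by omega), mul_zero]

lemma hc_pow_top {R : Type*} [CommRing R] {f : MvPolynomial (Fin m) R} {a : ℕ} (hf : f.totalDegree ≤ a) (e : ℕ) :
    homogeneousComponent (a * e) (f ^ e) = homogeneousComponent a f ^ e := by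
  induction e with
  | zero =>
    rw [pow_zero, pow_zero, mul_zero]
    have h1 : (1 : MvPolynomial (Fin m) R).IsHomogeneous 0 := isHomogeneous_one _ _
    rw [homogeneousComponent_of_mem h1, if_pos rfl]
  | succ e ih =>
    have h1 : (f ^ e).totalDegree ≤ a * e :=
      (totalDegree_pow _ _).trans (by rw [mul_comm]; exact Nat.mul_le_mul_right _ hf)
    rw [pow_succ, mul_add, mul_one, hc_mul_top h1 hf, ih, pow_succ]

/-- The ideal of the leading forms. -/
noncomputable def lf (𝔞 : Ideal (MvPolynomial (Fin m) ℤ)) : Ideal (MvPolynomial (Fin m) ℤ) where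
  carrier := {t | ∀ n, ∃ f ∈ 𝔞, f.totalDegree ≤ n ∧ homogeneousComponent n f = homogeneousComponent n t}
  zero_mem' := fun n => ⟨0, 𝔞.zero_mem, by rw [totalDegree_zero]; exact Nat.zero_le _, rfl⟩
  add_mem' := by
    intro a b ha hb n
    obtain ⟨f, hf, h1, h2⟩ := ha n
    obtain ⟨g, hg, h3, h4⟩ := hb n
    exact ⟨f + g, 𝔞.add_mem hf hg, (totalDegree_add _ _).trans (max_le h1 h3), by rw [map_add, map_add, h2, h4]⟩
  smul_mem' := by
    intro c t ht n
    choose f hf h1 h2 using ht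
    refine ⟨∑ j ∈ range (t.totalDegree + 1), if j ≤ n then f j * homogeneousComponent (n - j) c else 0,
      Ideal.sum_mem _ fun j _ => ?_, totalDegree_finsetSum_le fun j _ => ?_, ?_⟩
    · split_ifs
      · exact 𝔞.mul_mem_right _ (hf j)
      · exact 𝔞.zero_mem
    · split_ifs with h
      · refine (totalDegree_mul _ _).trans ?_
        have h3 := (homogeneousComponent_isHomogeneous (n - j) c).totalDegree_le
        have h4 := h1 j
        omega
      · rw [totalDegree_zero]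
        exact Nat.zero_le _
    · rw [smul_eq_mul, hc_prod, map_sum]
      refine Finset.sum_congr rfl fun j _ => ?_
      split_ifs with h
      · rw [hc_mul (f j) (homogeneousComponent_isHomogeneous (n - j) c) n, if_pos (Nat.sub_le _ _),
          Nat.sub_sub_self h, h2, mul_comm]
      · exact map_zero _

lemma hc_mem_lf {𝔞 : Ideal (MvPolynomial (Fin m) ℤ)} {f : MvPolynomial (Fin m) ℤ} (hf : f ∈ 𝔞) {n : ℕ}
    (hn : f.totalDegree ≤ n) : homogeneousComponent n f ∈ lf 𝔞 := by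
  intro k
  rw [hc_hc]
  by_cases h : k = n
  · rw [if_pos h]
    exact ⟨f, hf, by omega, by rw [h]⟩
  · rw [if_neg h]
    exact ⟨0, 𝔞.zero_mem, by rw [totalDegree_zero]; exact Nat.zero_le _, map_zero _⟩

lemma degree_lt_of_hc {f : MvPolynomial (Fin m) ℤ} {n : ℕ} (hf : f.totalDegree ≤ n + 1)
    (h : homogeneousComponent (n + 1) f = 0) : f.totalDegree ≤ n := by
  refine Finset.sup_le fun s hs => ?_
  have h1 := le_totalDegree hs
  have h2 : s.degree ≤ n + 1 := by
    rw [Finsupp.degree]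
    exact h1.trans hf
  rcases Nat.lt_or_ge n s.degree with h3 | h3
  · exfalso
    have h4 : s.degree = n + 1 := by omega
    have h5 := congrArg (coeff s) h
    rw [coeff_homogeneousComponent, if_pos h4, coeff_zero] at h5
    exact (mem_support_iff.1 hs) h5
  · rw [Finsupp.degree] at h3
    exact h3

lemma hc_natCast_mul (p n : ℕ) (h : MvPolynomial (Fin m) ℤ) :
    homogeneousComponent n ((p : MvPolynomial (Fin m) ℤ) * h) = (p : MvPolynomial (Fin m) ℤ) * homogeneousComponent n h := by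
  rw [← nsmul_eq_mul, ← nsmul_eq_mul, map_nsmul]

lemma descend {𝔞 : Ideal (MvPolynomial (Fin m) ℤ)} {p : ℕ}
    (hp : ∀ f, (p : MvPolynomial (Fin m) ℤ) * f ∈ lf 𝔞 → f ∈ lf 𝔞) {D : ℕ} {G : MvPolynomial (Fin m) ℤ}
    (hG : G.totalDegree ≤ D) (n : ℕ) : ∀ f ∈ 𝔞, f.totalDegree ≤ D + n → (∃ h, f = G + p * h) →
      ∃ f' ∈ 𝔞, f'.totalDegree ≤ D ∧ ∃ h, f' = G + p * h := by
  induction n with
  | zero => exact fun f hf hd hh => ⟨f, hf, hd, hh⟩
  | succ n ih =>
    rintro f hf hd ⟨h, hh⟩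
    have h1 : homogeneousComponent (D + n + 1) f = (p : MvPolynomial (Fin m) ℤ) * homogeneousComponent (D + n + 1) h := by
      rw [hh, map_add, homogeneousComponent_eq_zero _ G (by omega), zero_add, hc_natCast_mul]
    have h2 := hp _ (by rw [← h1]; exact hc_mem_lf hf hd)
    obtain ⟨f₁, hf₁, hd₁, h3⟩ := h2 (D + n + 1)
    rw [hc_hc, if_pos rfl] at h3
    refine ih (f - p * f₁) (𝔞.sub_mem hf (𝔞.mul_mem_left _ hf₁)) (degree_lt_of_hc ?_ ?_) ⟨h - f₁, by rw [hh]; ring⟩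
    · refine (totalDegree_sub _ _).trans (max_le hd ((totalDegree_mul _ _).trans ?_))
      rw [Pool.Agent.H446.AP10.totalDegree_natCast, zero_add]
      exact hd₁
    · rw [map_sub, h1, hc_natCast_mul, h3, sub_self]

lemma top_mem {𝔞 : Ideal (MvPolynomial (Fin m) ℤ)} {p : ℕ}
    (hp : ∀ f, (p : MvPolynomial (Fin m) ℤ) * f ∈ lf 𝔞 → f ∈ lf 𝔞) {D e : ℕ} {F : MvPolynomial (Fin m) ℤ}
    (hF : F.totalDegree ≤ D) (h : F ^ e ∈ 𝔞 ⊔ Ideal.span {(p : MvPolynomial (Fin m) ℤ)}) :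
    homogeneousComponent D F ^ e ∈ lf 𝔞 ⊔ Ideal.span {(p : MvPolynomial (Fin m) ℤ)} := by
  obtain ⟨f, hf, y, hy, h1⟩ := Submodule.mem_sup.1 h
  obtain ⟨h', rfl⟩ := Ideal.mem_span_singleton'.1 hy
  have hdeg : (F ^ e).totalDegree ≤ D * e :=
    (totalDegree_pow _ _).trans (by rw [mul_comm]; exact Nat.mul_le_mul_right _ hF)
  obtain ⟨f', hf', hd', k, hk⟩ := descend hp hdeg f.totalDegree f hf (Nat.le_add_left _ _)
    ⟨-h', by rw [← h1]; ring⟩
  have h2 : homogeneousComponent D F ^ e =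
      homogeneousComponent (D * e) f' + -homogeneousComponent (D * e) k * (p : MvPolynomial (Fin m) ℤ) := by
    rw [← hc_pow_top hF, hk, map_add, hc_natCast_mul]
    ring
  rw [h2]
  exact Submodule.add_mem_sup (hc_mem_lf hf' hd') (Ideal.mem_span_singleton'.2 ⟨_, rfl⟩)

lemma cancel {𝔞 : Ideal (MvPolynomial (Fin m) ℤ)} (h𝔞 : 𝔞.IsPrime) {g : MvPolynomial (Fin m) ℤ} (hg : g ∉ 𝔞) {p : ℕ}
    (ht : ∀ f, (p : MvPolynomial (Fin m) ℤ) * f ∈ 𝔞 ⊔ Ideal.span {g} → f ∈ 𝔞 ⊔ Ideal.span {g})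
    {a : MvPolynomial (Fin m) ℤ} (h : g * a ∈ 𝔞 ⊔ Ideal.span {(p : MvPolynomial (Fin m) ℤ)}) :
    a ∈ 𝔞 ⊔ Ideal.span {(p : MvPolynomial (Fin m) ℤ)} := by
  obtain ⟨α, hα, y, hy, h1⟩ := Submodule.mem_sup.1 h
  obtain ⟨b, rfl⟩ := Ideal.mem_span_singleton'.1 hy
  have h2 : (p : MvPolynomial (Fin m) ℤ) * b ∈ 𝔞 ⊔ Ideal.span {g} := by
    have h3 : (p : MvPolynomial (Fin m) ℤ) * b = -α + a * g := by
      linear_combination h1
    rw [h3]
    exact Submodule.add_mem_sup (𝔞.neg_mem hα) (Ideal.mem_span_singleton'.2 ⟨_, rfl⟩)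
  obtain ⟨α', hα', y', hy', h3⟩ := Submodule.mem_sup.1 (ht b h2)
  obtain ⟨b', rfl⟩ := Ideal.mem_span_singleton'.1 hy'
  have h4 : g * (a - p * b') ∈ 𝔞 := by
    have h5 : g * (a - p * b') = α + p * α' := by
      linear_combination -h1 - (p : MvPolynomial (Fin m) ℤ) * h3
    rw [h5]
    exact 𝔞.add_mem hα (𝔞.mul_mem_left _ hα')
  have h5 := (h𝔞.mem_or_mem h4).resolve_left hg
  have h6 : a = (a - p * b') + b' * p := by ring
  rw [h6]
  exact Submodule.add_mem_sup h5 (Ideal.mem_span_singleton'.2 ⟨_, rfl⟩)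

lemma cancel_pow {𝔞 : Ideal (MvPolynomial (Fin m) ℤ)} (h𝔞 : 𝔞.IsPrime) {g : MvPolynomial (Fin m) ℤ} (hg : g ∉ 𝔞) {p : ℕ}
    (ht : ∀ f, (p : MvPolynomial (Fin m) ℤ) * f ∈ 𝔞 ⊔ Ideal.span {g} → f ∈ 𝔞 ⊔ Ideal.span {g}) (e : ℕ)
    {a : MvPolynomial (Fin m) ℤ} (h : g ^ e * a ∈ 𝔞 ⊔ Ideal.span {(p : MvPolynomial (Fin m) ℤ)}) :
    a ∈ 𝔞 ⊔ Ideal.span {(p : MvPolynomial (Fin m) ℤ)} := by
  induction e with
  | zero => rwa [pow_zero, one_mul] at h
  | succ e ih =>
    refine ih (cancel h𝔞 hg ht ?_)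
    rwa [← mul_assoc, ← pow_succ']

lemma exists_field_quot (P : Ideal (MvPolynomial (Fin m) ℤ)) [P.IsPrime] :
    ∃ (K : Type) (_ : Field K) (φ : MvPolynomial (Fin m) ℤ →+* K), ∀ f, φ f = 0 ↔ f ∈ P := by
  have hdom : IsDomain (MvPolynomial (Fin m) ℤ ⧸ P) := Ideal.Quotient.isDomain P
  refine ⟨FractionRing (MvPolynomial (Fin m) ℤ ⧸ P), inferInstance,
    (algebraMap (MvPolynomial (Fin m) ℤ ⧸ P) (FractionRing (MvPolynomial (Fin m) ℤ ⧸ P))).comp (Ideal.Quotient.mk P), ?_⟩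
  intro f
  rw [← Ideal.Quotient.eq_zero_iff_mem]
  exact map_eq_zero_iff _ (IsFractionRing.injective (MvPolynomial (Fin m) ℤ ⧸ P)
    (FractionRing (MvPolynomial (Fin m) ℤ ⧸ P)))

/-- If a function is zero at all points outside of the zeros of `g`, a power of its product with `g` lies in the ideal. -/
lemma mem_radical_of_points {𝔞 : Ideal (MvPolynomial (Fin m) ℤ)} {p : ℕ} (hp : p.Prime) {g F : MvPolynomial (Fin m) ℤ}
    (h : ∀ (k : Type) [Field k] [CharP k p] (z : Fin m → k), (∀ f ∈ 𝔞, aeval z f = 0) → aeval z g ≠ 0 → aeval z F = 0) :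
    ∃ e : ℕ, (g * F) ^ e ∈ 𝔞 ⊔ Ideal.span {(p : MvPolynomial (Fin m) ℤ)} := by
  have h1 : g * F ∈ (𝔞 ⊔ Ideal.span {(p : MvPolynomial (Fin m) ℤ)}).radical := by
    rw [Ideal.radical_eq_sInf, Ideal.mem_sInf]
    rintro P ⟨hP, hprime⟩
    by_cases hgP : g ∈ P
    · exact Ideal.mul_mem_right _ P hgP
    · refine Ideal.mul_mem_left P _ ?_
      obtain ⟨K, i1, φ, hφ⟩ := exists_field_quot P
      have hev : ∀ f, aeval (fun i => φ (X i)) f = φ f := by
        intro f
        have h2 : (aeval (fun i => φ (X i)) : MvPolynomial (Fin m) ℤ →ₐ[ℤ] _).toRingHom = φ := by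
          refine MvPolynomial.ringHom_ext (fun n => ?_) fun i => ?_
          · show aeval (fun i => φ (X i)) (C n) = φ (C n)
            rw [aeval_C, eq_intCast]
            have h2 : (C n : MvPolynomial (Fin m) ℤ) = (n : MvPolynomial (Fin m) ℤ) := by
              rw [← eq_intCast C n]
            rw [h2, map_intCast]
          · show aeval (fun i => φ (X i)) (X i) = φ (X i)
            rw [aeval_X]
        exact congrArg (fun ψ : MvPolynomial (Fin m) ℤ →+* _ => ψ f) h2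
      have hp0 : ((p : ℕ) : K) = 0 := by
        rw [← map_natCast φ, hφ]
        exact hP (Ideal.mem_sup_right (Ideal.subset_span rfl))
      have hchar : CharP K p := by
        have h4 := ringChar.eq_iff.1 (CharP.ringChar_of_prime_eq_zero hp hp0)
        exact h4
      rw [← hφ, ← hev]
      refine h K (fun i => φ (X i)) (fun f hf => ?_) ?_
      · rw [hev, hφ]
        exact hP (Ideal.mem_sup_left hf)
      · rw [hev]
        intro h3
        exact hgP ((hφ _).1 h3)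
  exact h1

/-- **Points on the asymptotic cone modulo primes that are not exceptional.** -/
theorem cone {𝓕 : ℕ → Set (MvPolynomial (Fin m) ℤ)} {𝔞 : Ideal (MvPolynomial (Fin m) ℤ)} (h𝔞 : 𝔞.IsPrime)
    {g : MvPolynomial (Fin m) ℤ} (hg : g ∉ 𝔞) {z : Fin m → ℂ}
    (hz : ∀ f ∈ 𝔞, ∀ n, f.totalDegree ≤ n → aeval z (homogeneousComponent n f) = 0) {c : MvPolynomial (Fin m) ℤ}
    (hc : aeval z c ≠ 0) : ∃ N : ℕ, 0 < N ∧ ∀ p : ℕ, p.Prime → ¬ p ∣ N → ¬ Non 𝓕 𝔞 g p →
      ∃ (k : Type) (_ : Field k) (_ : CharP k p) (y : Fin m → k), aeval y c ≠ 0 ∧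
        ∀ F ∈ 𝓕 p, ∀ D, F.totalDegree ≤ D → aeval y (homogeneousComponent D F) = 0 := by
  obtain ⟨N₁, hN₁, h1⟩ := torsion (lf 𝔞)
  obtain ⟨N₂, hN₂, h2⟩ := torsion (𝔞 ⊔ Ideal.span {g})
  obtain ⟨N₃, hN₃, h3⟩ := exists_point hc
  refine ⟨N₁ * N₂ * N₃, by positivity, fun p hp hpN hnon => ?_⟩
  have h1' := h1 p hp fun h => hpN ((h.mul_right N₂).mul_right N₃)
  have h2' := h2 p hp fun h => hpN ((h.mul_left N₁).mul_right N₃)
  obtain ⟨k, i1, i2, y, hy, hyc⟩ := h3 p hp fun h => hpN (h.mul_left _)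
  refine ⟨k, i1, i2, y, hyc, fun F hF D hD => ?_⟩
  have hlf : ∀ t ∈ lf 𝔞, aeval y t = 0 := by
    intro t ht
    refine hy t ?_
    rw [← sum_homogeneousComponent t, map_sum]
    refine Finset.sum_eq_zero fun n _ => ?_
    obtain ⟨f, hf, h4, h5⟩ := ht n
    rw [← h5]
    exact hz f hf n h4
  obtain ⟨e, he⟩ := mem_radical_of_points hp (g := g) (F := F) (𝔞 := 𝔞) fun K _ _ w hw hwg => by
    by_contra hcon
    exact hnon ⟨K, inferInstance, inferInstance, w, hw, hwg, F, hF, hcon⟩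
  rw [mul_pow] at he
  have h4 := top_mem h1' hD (cancel_pow h𝔞 hg h2' e he)
  obtain ⟨t, ht, y', hy', h5⟩ := Submodule.mem_sup.1 h4
  obtain ⟨b, rfl⟩ := Ideal.mem_span_singleton'.1 hy'
  have h6 := congrArg (aeval y) h5
  rw [map_add, hlf t ht, zero_add, map_mul, map_natCast, CharP.cast_eq_zero, mul_zero, map_pow] at h6
  exact eq_zero_of_pow_eq_zero h6.symm

end Pool.Agent.H446.AP15
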