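import Pool.Agent.H446.AP15.C2
import Pool.Agent.H446.AP10.Fam
import Pool.Agent.H446.AP.Mert

/-!
# The family at infinity is nilpotent on the asymptotic cone of a special variety
-/

set_option autoImplicit false

namespace Pool.Agent.H446.AP15

open Finset Polynomial
open Pool.Agent.H446.AP4 (curv curv_succ map_curv mapc coeff_mapc)
open Pool.Agent.H446.AP10 (TD FF Non TD_curv TD_pow)

variable {m r : ℕ}

/-- The part of degree `n`. -/
noncomputable def hx (n : ℕ) (f : (MvPolynomial (Fin m) ℤ)[X]) : (MvPolynomial (Fin m) ℤ)[X] :=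
  mapc (fun a => MvPolynomial.homogeneousComponent n a) f

lemma coeff_hx (n : ℕ) (f : (MvPolynomial (Fin m) ℤ)[X]) (l : ℕ) :
    (hx n f).coeff l = MvPolynomial.homogeneousComponent n (f.coeff l) :=
  coeff_mapc (φ := fun a : MvPolynomial (Fin m) ℤ => MvPolynomial.homogeneousComponent n a) (map_zero _) f l

lemma hx_zero (n : ℕ) : hx n (0 : (MvPolynomial (Fin m) ℤ)[X]) = 0 := by
  refine Polynomial.ext fun l => ?_
  rw [coeff_hx, coeff_zero, map_zero]

lemma hx_one : hx 0 (1 : (MvPolynomial (Fin m) ℤ)[X]) = 1 := by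
  refine Polynomial.ext fun l => ?_
  rw [coeff_hx, coeff_one]
  split_ifs
  · rw [MvPolynomial.homogeneousComponent_of_mem (MvPolynomial.isHomogeneous_one _ _), if_pos rfl]
  · exact map_zero _

lemma hx_add (n : ℕ) (f g : (MvPolynomial (Fin m) ℤ)[X]) : hx n (f + g) = hx n f + hx n g := by
  refine Polynomial.ext fun l => ?_
  rw [coeff_hx, coeff_add, coeff_add, coeff_hx, coeff_hx, map_add]

lemma hx_sub (n : ℕ) (f g : (MvPolynomial (Fin m) ℤ)[X]) : hx n (f - g) = hx n f - hx n g := by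
  refine Polynomial.ext fun l => ?_
  rw [coeff_hx, coeff_sub, coeff_sub, coeff_hx, coeff_hx, map_sub]

lemma hx_sum (n : ℕ) {ι : Type*} (s : Finset ι) (f : ι → (MvPolynomial (Fin m) ℤ)[X]) :
    hx n (∑ i ∈ s, f i) = ∑ i ∈ s, hx n (f i) := by
  refine Polynomial.ext fun l => ?_
  rw [coeff_hx, finsetSum_coeff, finsetSum_coeff, map_sum]
  exact Finset.sum_congr rfl fun i _ => (coeff_hx n (f i) l).symm

lemma hx_eq_zero {D n : ℕ} {f : (MvPolynomial (Fin m) ℤ)[X]} (h : TD D f) (hn : D < n) : hx n f = 0 := by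
  refine Polynomial.ext fun l => ?_
  rw [coeff_hx, MvPolynomial.homogeneousComponent_eq_zero _ _ ((h l).trans_lt hn), coeff_zero]

lemma hx_mul {a b : ℕ} {f g : (MvPolynomial (Fin m) ℤ)[X]} (hf : TD a f) (hg : TD b g) :
    hx (a + b) (f * g) = hx a f * hx b g := by
  refine Polynomial.ext fun l => ?_
  rw [coeff_hx, coeff_mul, coeff_mul, map_sum]
  refine Finset.sum_congr rfl fun x _ => ?_
  rw [coeff_hx, coeff_hx, hc_mul_top (hf _) (hg _)]

/-- The terms of the highest degree of the curvatures. -/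
lemma hx_curv {D : ℕ} {Δ : (MvPolynomial (Fin m) ℤ)[X]} {B : Matrix (Fin r) (Fin r) (MvPolynomial (Fin m) ℤ)[X]}
    (hΔ : TD D Δ) (hB : ∀ i j, TD (D + 1) (B i j)) (k : ℕ) :
    ∀ i j, hx ((D + 1) * k) (curv (fun f => Polynomial.derivative f) Δ B k i j) = ((B.map (hx (D + 1))) ^ k) i j := by
  induction k with
  | zero =>
    intro i j
    show hx ((D + 1) * 0) ((1 : Matrix (Fin r) (Fin r) (MvPolynomial (Fin m) ℤ)[X]) i j) =
      ((B.map (hx (D + 1))) ^ 0) i j
    rw [pow_zero, mul_zero, Matrix.one_apply]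
    split_ifs
    · exact hx_one
    · exact hx_zero 0
  | succ k ih =>
    intro i j
    have hT := TD_curv (hΔ.mono (Nat.le_add_right D 1)) hB k
    have h1 : hx ((D + 1) * (k + 1)) (Δ * Polynomial.derivative (curv (fun f => Polynomial.derivative f) Δ B k i j)) = 0 :=
      hx_eq_zero (hΔ.mul (hT i j).derivative) (by rw [Nat.mul_succ]; omega)
    have h2 : hx ((D + 1) * (k + 1)) ((k : (MvPolynomial (Fin m) ℤ)[X]) * Polynomial.derivative Δ *
        curv (fun f => Polynomial.derivative f) Δ B k i j) = 0 :=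
      hx_eq_zero (((TD.natCast (D := 0) k).mul hΔ.derivative).mul (hT i j)) (by rw [Nat.mul_succ]; omega)
    have h3 : (D + 1) * (k + 1) = (D + 1) + (D + 1) * k := by ring
    rw [curv_succ, hx_add, hx_sub, h1, h2, sub_zero, zero_add, Matrix.mul_apply, hx_sum, pow_succ', Matrix.mul_apply]
    refine Finset.sum_congr rfl fun l _ => ?_
    rw [h3, hx_mul (hB i l) (hT l j), ih l j, Matrix.map_apply]

lemma hx_pow {D : ℕ} {M : Matrix (Fin r) (Fin r) (MvPolynomial (Fin m) ℤ)[X]} (hM : ∀ i j, TD D (M i j)) (q : ℕ) :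
    ∀ i j, hx (D * q) ((M ^ q) i j) = ((M.map (hx D)) ^ q) i j := by
  induction q with
  | zero =>
    intro i j
    rw [pow_zero, pow_zero, mul_zero, Matrix.one_apply]
    split_ifs
    · exact hx_one
    · exact hx_zero 0
  | succ q ih =>
    intro i j
    rw [pow_succ, pow_succ, Matrix.mul_apply, Matrix.mul_apply, hx_sum]
    refine Finset.sum_congr rfl fun l _ => ?_
    rw [mul_add, mul_one, hx_mul (TD_pow hM q i l) (hM l j), ih i l, Matrix.map_apply]

lemma hx_curv_pow {D : ℕ} {Δ : (MvPolynomial (Fin m) ℤ)[X]} {B : Matrix (Fin r) (Fin r) (MvPolynomial (Fin m) ℤ)[X]}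
    (hΔ : TD D Δ) (hB : ∀ i j, TD (D + 1) (B i j)) (p q : ℕ) (i j : Fin r) :
    hx ((D + 1) * p * q) ((curv (fun f => Polynomial.derivative f) Δ B p ^ q) i j) =
      ((B.map (hx (D + 1))) ^ (p * q)) i j := by
  rw [hx_pow (TD_curv (hΔ.mono (Nat.le_add_right D 1)) hB p) q i j, pow_mul]
  have h1 : (curv (fun f => Polynomial.derivative f) Δ B p).map (hx ((D + 1) * p)) = (B.map (hx (D + 1))) ^ p :=
    Matrix.ext fun i j => hx_curv hΔ hB p i j
  rw [h1]

/-- The value of a matrix at a point. -/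
noncomputable def vl {k : Type*} [CommRing k] (y : Fin m → k) (M : Matrix (Fin r) (Fin r) (MvPolynomial (Fin m) ℤ)[X]) :
    Matrix (Fin r) (Fin r) k[X] :=
  M.map (mapRingHom ((MvPolynomial.aeval y : MvPolynomial (Fin m) ℤ →ₐ[ℤ] k) : MvPolynomial (Fin m) ℤ →+* k))

lemma vl_pow {k : Type*} [CommRing k] (y : Fin m → k) (M : Matrix (Fin r) (Fin r) (MvPolynomial (Fin m) ℤ)[X]) (n : ℕ) :
    vl y M ^ n = vl y (M ^ n) :=
  (map_pow (mapRingHom ((MvPolynomial.aeval y : MvPolynomial (Fin m) ℤ →ₐ[ℤ] k) :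
    MvPolynomial (Fin m) ℤ →+* k)).mapMatrix _ n).symm

lemma coeff_vl {k : Type*} [CommRing k] (y : Fin m → k) (M : Matrix (Fin r) (Fin r) (MvPolynomial (Fin m) ℤ)[X])
    (i j : Fin r) (l : ℕ) : (vl y M i j).coeff l = MvPolynomial.aeval y ((M i j).coeff l) := by
  show (mapRingHom _ (M i j)).coeff l = _
  rw [coe_mapRingHom, coeff_map]
  rfl

lemma charpoly_vl {k : Type*} [CommRing k] (y : Fin m → k) (M : Matrix (Fin r) (Fin r) (MvPolynomial (Fin m) ℤ)[X])
    (j l : ℕ) : (((vl y M).charpoly - X ^ r).coeff j).coeff l = MvPolynomial.aeval y (((M.charpoly - X ^ r).coeff j).coeff l) := by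
  have h1 : (vl y M).charpoly - X ^ r = (M.charpoly - X ^ r).map
      (mapRingHom ((MvPolynomial.aeval y : MvPolynomial (Fin m) ℤ →ₐ[ℤ] k) : MvPolynomial (Fin m) ℤ →+* k)) := by
    rw [Polynomial.map_sub, Polynomial.map_pow, map_X]
    congr 1
    exact Matrix.charpoly_map _ _
  rw [h1, coeff_map, coe_mapRingHom, coeff_map]
  rfl

/-- **The matrix at infinity is nilpotent at all points of the asymptotic cone.** -/
theorem nilpotent_at_infinity {D : ℕ} {Δ : (MvPolynomial (Fin m) ℤ)[X]}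
    {B : Matrix (Fin r) (Fin r) (MvPolynomial (Fin m) ℤ)[X]}
    (hΔ : TD D Δ) (hB : ∀ i j, TD (D + 1) (B i j)) {q : ℕ} {𝔞 : Ideal (MvPolynomial (Fin m) ℤ)} (h𝔞 : 𝔞.IsPrime)
    {g : MvPolynomial (Fin m) ℤ} (hg : g ∉ 𝔞) {C : ℝ}
    (hC : ∀ Q : Finset ℕ, (∀ p ∈ Q, p.Prime ∧ Non (FF Δ B q) 𝔞 g p) → ∑ p ∈ Q, Real.log p / p ≤ C)
    {z : Fin m → ℂ}
    (hz : ∀ f ∈ 𝔞, ∀ n, f.totalDegree ≤ n → MvPolynomial.aeval z (MvPolynomial.homogeneousComponent n f) = 0) :
    IsNilpotent (vl z (B.map (hx (D + 1)))) := by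
  classical
  by_contra hnil
  obtain ⟨j, l, hc⟩ : ∃ j l, MvPolynomial.aeval z ((((B.map (hx (D + 1))).charpoly - X ^ r).coeff j).coeff l) ≠ 0 := by
    by_contra h
    push Not at h
    refine hnil ⟨r, ?_⟩
    have h1 : (vl z (B.map (hx (D + 1)))).charpoly - X ^ r = 0 := by
      refine Polynomial.ext fun j => Polynomial.ext fun l => ?_
      rw [charpoly_vl, h]
      rfl
    have h2 := Matrix.aeval_self_charpoly (vl z (B.map (hx (D + 1))))
    rw [sub_eq_zero.1 h1, map_pow, aeval_X] at h2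
    exact h2
  obtain ⟨N, hN, hcone⟩ := cone (𝓕 := FF Δ B q) h𝔞 hg hz hc
  have hall : ∀ p : ℕ, p.Prime → ¬ p ∣ N → Non (FF Δ B q) 𝔞 g p := by
    intro p hp hpN
    by_contra hnon
    obtain ⟨k, i1, i2, y, hyc, hF⟩ := hcone p hp hpN hnon
    have h1 : vl y (B.map (hx (D + 1))) ^ (p * q) = 0 := by
      refine Matrix.ext fun i j => Polynomial.ext fun l => ?_
      rw [vl_pow, coeff_vl, ← hx_curv_pow hΔ hB p q i j, coeff_hx]
      exact hF _ ⟨i, j, l, rfl⟩ _ (TD_pow (TD_curv (hΔ.mono (Nat.le_add_right D 1)) hB p) q i j l)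
    have h2 := Matrix.isNilpotent_charpoly_sub_pow_of_isNilpotent (M := vl y (B.map (hx (D + 1)))) ⟨_, h1⟩
    rw [Fintype.card_fin] at h2
    have h3 := h2.eq_zero
    refine hyc ?_
    rw [← charpoly_vl, h3]
    rfl
  obtain ⟨c₀, hc₀, hM⟩ := Pool.Agent.H446.AP.mertens
  set S : ℝ := ∑ p ∈ N.divisors, Real.log p / p with hS
  set x : ℝ := Real.exp (|C| + |S| + c₀ + 1) with hx
  have hx1 : 1 ≤ x := by
    rw [hx]
    exact Real.one_le_exp (by positivity)
  have h1 := (hM x hx1).1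
  have h2 : Real.log x = |C| + |S| + c₀ + 1 := by rw [hx, Real.log_exp]
  have h3 : ∑ p ∈ Pool.Agent.H446.AP.pr x, Real.log p / p ≤ C + S := by
    rw [← Finset.sum_filter_add_sum_filter_not (s := Pool.Agent.H446.AP.pr x) (fun p => ¬ p ∣ N)]
    refine add_le_add (hC _ fun p hp => ?_) (Finset.sum_le_sum_of_subset_of_nonneg (fun p hp => ?_) fun p _ _ =>
      div_nonneg (Real.log_natCast_nonneg p) (Nat.cast_nonneg p))
    · rw [mem_filter] at hp
      have h4 : p.Prime := ((Pool.Agent.H446.AP.mem_pr (by linarith)).1 hp.1).1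
      exact ⟨h4, hall p h4 hp.2⟩
    · rw [mem_filter, not_not] at hp
      rw [Nat.mem_divisors]
      exact ⟨hp.2, hN.ne'⟩
  have h4 := le_abs_self C
  have h5 := le_abs_self S
  linarith

end Pool.Agent.H446.AP15
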