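import Pool.Agent.H446.AP15.C3
import Mathlib.RingTheory.Nullstellensatz

/-!
# Varieties without points at infinity are finite
-/

set_option autoImplicit false

namespace Pool.Agent.H446.AP15

open Finset MvPolynomial
open Pool.Agent.H446.AP9 (hc_mul)

variable {m : ℕ}

/-- The ideal of the leading forms. -/
noncomputable def lfR {R : Type*} [CommRing R] (𝔞 : Ideal (MvPolynomial (Fin m) R)) : Ideal (MvPolynomial (Fin m) R) where
  carrier := {t | ∀ n, ∃ f ∈ 𝔞, f.totalDegree ≤ n ∧ homogeneousComponent n f = homogeneousComponent n t}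
  zero_mem' := fun n => ⟨0, 𝔞.zero_mem, by rw [totalDegree_zero]; exact Nat.zero_le _, rfl⟩
  add_mem' := by
    intro a b ha hb n
    obtain ⟨f, hf, h1, h2⟩ := ha n
    obtain ⟨g, hg, h3, h4⟩ := hb n
    exact ⟨f + g, 𝔞.add_mem hf hg, (totalDegree_add _ _).trans (max_le h1 h3), by rw [map_add, map_add, h2, h4]⟩
  smul_mem' := by
    intro c t ht n
    choose f hf h1 h2 using ht
    refine ⟨∑ j ∈ range (t.totalDegree + 1), if j ≤ n then f j * homogeneousComponent (n - j) c else 0,
      Ideal.sum_mem _ fun j _ => ?_, totalDegree_finsetSum_le fun j _ => ?_, ?_⟩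
    · split_ifs
      · exact 𝔞.mul_mem_right _ (hf j)
      · exact 𝔞.zero_mem
    · split_ifs with h
      · refine (totalDegree_mul _ _).trans ?_
        have h3 := (homogeneousComponent_isHomogeneous (n - j) c).totalDegree_le
        have h4 := h1 j
        omega
      · rw [totalDegree_zero]
        exact Nat.zero_le _
    · rw [smul_eq_mul, hc_prod, map_sum]
      refine Finset.sum_congr rfl fun j _ => ?_
      split_ifs with h
      · rw [hc_mul (f j) (homogeneousComponent_isHomogeneous (n - j) c) n, if_pos (Nat.sub_le _ _),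
          Nat.sub_sub_self h, h2, mul_comm]
      · exact map_zero _

lemma hc_mem_lfR {R : Type*} [CommRing R] {𝔞 : Ideal (MvPolynomial (Fin m) R)} {f : MvPolynomial (Fin m) R} (hf : f ∈ 𝔞)
    {n : ℕ} (hn : f.totalDegree ≤ n) : homogeneousComponent n f ∈ lfR 𝔞 := by
  intro k
  rw [hc_hc]
  by_cases h : k = n
  · rw [if_pos h]
    exact ⟨f, hf, by omega, by rw [h]⟩
  · rw [if_neg h]
    exact ⟨0, 𝔞.zero_mem, by rw [totalDegree_zero]; exact Nat.zero_le _, map_zero _⟩

lemma degree_lt_of_hcR {R : Type*} [CommRing R] {f : MvPolynomial (Fin m) R} {n : ℕ} (hf : f.totalDegree ≤ n)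
    (h : homogeneousComponent n f = 0) {s : Fin m →₀ ℕ} (hs : s ∈ f.support) : s.degree < n := by
  have h1 := le_totalDegree hs
  have h2 : s.degree ≤ n := by
    rw [Finsupp.degree]
    exact h1.trans hf
  refine lt_of_le_of_ne h2 fun h4 => ?_
  have h5 := congrArg (coeff s) h
  rw [coeff_homogeneousComponent, if_pos h4, coeff_zero] at h5
  exact (mem_support_iff.1 hs) h5

/-- Polynomials with the leading forms `X_i ^ e`. -/
lemma exists_forms (I : Ideal (MvPolynomial (Fin m) ℂ))
    (h : ∀ z : Fin m → ℂ, (∀ f ∈ I, ∀ n, f.totalDegree ≤ n → aeval z (homogeneousComponent n f) = 0) → z = 0) (i : Fin m) :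
    ∃ e : ℕ, ∀ n, e ≤ n → ∃ f ∈ I, f.totalDegree ≤ n ∧ homogeneousComponent n f = X i ^ n := by
  have h1 : (X i : MvPolynomial (Fin m) ℂ) ∈ (lfR I).radical := by
    rw [← MvPolynomial.vanishingIdeal_zeroLocus_eq_radical (K := ℂ)]
    rw [mem_vanishingIdeal_iff]
    intro z hz
    rw [mem_zeroLocus_iff] at hz
    have h2 : z = 0 := h z fun f hf n hn => hz _ (hc_mem_lfR hf hn)
    rw [h2, aeval_X]
    rfl
  obtain ⟨e, he⟩ := h1
  refine ⟨e, fun n hn => ?_⟩
  have h2 : (X i : MvPolynomial (Fin m) ℂ) ^ n ∈ lfR I := by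
    obtain ⟨k, rfl⟩ := Nat.exists_eq_add_of_le hn
    rw [pow_add]
    exact (lfR I).mul_mem_right _ he
  obtain ⟨f, hf, h3, h4⟩ := h2 n
  refine ⟨f, hf, h3, ?_⟩
  rw [h4, homogeneousComponent_of_mem (isHomogeneous_X_pow i n), if_pos rfl]

lemma mk_smul (I : Ideal (MvPolynomial (Fin m) ℂ)) (c : ℂ) (f : MvPolynomial (Fin m) ℂ) :
    Ideal.Quotient.mk I (c • f) = c • Ideal.Quotient.mk I f := map_smul (Ideal.Quotient.mkₐ ℂ I) c f

/-- The quotient by an ideal without zeros at infinity is finite-dimensional. -/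
lemma finite_quot (I : Ideal (MvPolynomial (Fin m) ℂ))
    (h : ∀ z : Fin m → ℂ, (∀ f ∈ I, ∀ n, f.totalDegree ≤ n → aeval z (homogeneousComponent n f) = 0) → z = 0) :
    Module.Finite ℂ (MvPolynomial (Fin m) ℂ ⧸ I) := by
  classical
  choose e he using exists_forms I h
  set E := ∑ i, e i with hE
  have hEi : ∀ i, e i ≤ E := fun i => Finset.single_le_sum (f := fun i => e i) (fun _ _ => Nat.zero_le _) (mem_univ i)
  choose f hf hdeg htop using fun i => he i E (hEi i)
  set K := m * E with hK
  let S : Set (MvPolynomial (Fin m) ℂ ⧸ I) :=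
    (fun s : Fin m →₀ ℕ => Ideal.Quotient.mk I (monomial s 1)) '' {s | s.degree ≤ K}
  have hS : S.Finite := (Finsupp.finite_of_degree_le K).image _
  have hmon : ∀ n : ℕ, ∀ s : Fin m →₀ ℕ, s.degree = n →
      Ideal.Quotient.mk I (monomial s 1) ∈ Submodule.span ℂ S := by
    intro n
    induction n using Nat.strong_induction_on with
    | _ n ih =>
      intro s hs
      rcases Nat.lt_or_ge K s.degree with h1 | h1
      · obtain ⟨i, hi⟩ : ∃ i, E ≤ s i := by
          by_contra hcon
          push Not at hcon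
          have h2 : s.degree ≤ K := by
            rw [Finsupp.degree_eq_sum]
            calc ∑ i, s i ≤ ∑ _i : Fin m, E := Finset.sum_le_sum fun i _ => (hcon i).le
              _ = K := by rw [Finset.sum_const, Finset.card_univ, Fintype.card_fin, smul_eq_mul]
          omega
        obtain ⟨s', rfl⟩ : ∃ s', s = Finsupp.single i E + s' := by
          refine ⟨s - Finsupp.single i E, ?_⟩
          rw [add_tsub_cancel_of_le]
          rwa [Finsupp.single_le_iff]
        have hdeg' : E + s'.degree = n := by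
          rw [← hs, map_add, Finsupp.degree_single]
        obtain ⟨u, hu⟩ : ∃ u : MvPolynomial (Fin m) ℂ, u = X i ^ E - f i := ⟨_, rfl⟩
        have h3 : (monomial (Finsupp.single i E + s') (1 : ℂ)) = X i ^ E * monomial s' 1 := by
          rw [X_pow_eq_monomial, monomial_mul, one_mul]
        have h2 : (monomial (Finsupp.single i E + s') (1 : ℂ)) =
            f i * monomial s' 1 + u * monomial s' 1 := by
          rw [h3, hu]
          ring
        have h4 : Ideal.Quotient.mk I (monomial (Finsupp.single i E + s') (1 : ℂ)) =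
            Ideal.Quotient.mk I (u * monomial s' 1) := by
          rw [h2, map_add, Ideal.Quotient.eq_zero_iff_mem.2 (I.mul_mem_right _ (hf i)), zero_add]
        have h5 : u * monomial s' (1 : ℂ) = ∑ t ∈ u.support, coeff t u • monomial (t + s') (1 : ℂ) := by
          conv_lhs => rw [u.as_sum]
          rw [Finset.sum_mul]
          refine Finset.sum_congr rfl fun t _ => ?_
          rw [monomial_mul, mul_one, smul_monomial, smul_eq_mul, mul_one]
        have h6 : u.totalDegree ≤ E := by
          rw [hu, sub_eq_add_neg]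
          refine (totalDegree_add _ _).trans (max_le ?_ ?_)
          · rw [totalDegree_X_pow]
          · rw [totalDegree_neg]
            exact hdeg i
        have h7 : homogeneousComponent E u = 0 := by
          rw [hu, map_sub, htop i, homogeneousComponent_of_mem (isHomogeneous_X_pow i E), if_pos rfl, sub_self]
        rw [h4, h5, map_sum]
        refine Submodule.sum_mem _ fun t ht => ?_
        have h8 := degree_lt_of_hcR h6 h7 ht
        rw [mk_smul]
        exact Submodule.smul_mem _ _ (ih (t + s').degree (by rw [map_add]; omega) _ rfl)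
      · exact Submodule.subset_span ⟨s, h1, rfl⟩
  refine ⟨Submodule.fg_def.2 ⟨S, hS, ?_⟩⟩
  rw [eq_top_iff]
  rintro F -
  obtain ⟨F, rfl⟩ := Ideal.Quotient.mk_surjective F
  rw [F.as_sum, map_sum]
  refine Submodule.sum_mem _ fun s _ => ?_
  have h1 : Ideal.Quotient.mk I (monomial s (coeff s F)) = coeff s F • Ideal.Quotient.mk I (monomial s (1 : ℂ)) := by
    have h2 : (monomial s (coeff s F) : MvPolynomial (Fin m) ℂ) = coeff s F • monomial s (1 : ℂ) := by
      rw [smul_monomial, smul_eq_mul, mul_one]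
    rw [h2, mk_smul]
  rw [h1]
  exact Submodule.smul_mem _ _ (hmon _ s rfl)

lemma exists_poly (I : Ideal (MvPolynomial (Fin m) ℂ)) (hI : Module.Finite ℂ (MvPolynomial (Fin m) ℂ ⧸ I)) (i : Fin m) :
    ∃ P : Polynomial ℂ, P ≠ 0 ∧ Polynomial.aeval (X i : MvPolynomial (Fin m) ℂ) P ∈ I := by
  have h0 : IsIntegral ℂ (Ideal.Quotient.mkₐ ℂ I (X i)) := IsIntegral.of_finite ℂ _
  obtain ⟨P, hP, h2⟩ := h0
  refine ⟨P, hP.ne_zero, ?_⟩
  rw [← Ideal.Quotient.eq_zero_iff_mem, ← Ideal.Quotient.mkₐ_eq_mk ℂ, ← Polynomial.aeval_algHom_apply]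
  exact h2

/-- A finite-dimensional algebra has finitely many points. -/
lemma finite_zeros (I : Ideal (MvPolynomial (Fin m) ℂ)) (hI : Module.Finite ℂ (MvPolynomial (Fin m) ℂ ⧸ I)) :
    {z : Fin m → ℂ | ∀ f ∈ I, aeval z f = 0}.Finite := by
  choose P hP hPI using exists_poly I hI
  have h2 : (Set.pi Set.univ fun i : Fin m => {w : ℂ | (P i).IsRoot w}).Finite :=
    Set.Finite.pi fun i => Polynomial.finite_setOfPred_isRoot (hP i)
  refine h2.subset fun z hz => ?_
  rw [Set.mem_univ_pi]
  intro i
  have h3 : aeval z (Polynomial.aeval (X i : MvPolynomial (Fin m) ℂ) (P i)) = 0 := hz _ (hPI i)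
  rw [← Polynomial.aeval_algHom_apply, aeval_X] at h3
  show (P i).eval (z i) = 0
  rw [← h3, Polynomial.coe_aeval_eq_eval]

/-- **Varieties without points at infinity are finite.** -/
theorem finite_of_asymptotic {𝔞 : Ideal (MvPolynomial (Fin m) ℤ)}
    (h : ∀ z : Fin m → ℂ, (∀ f ∈ 𝔞, ∀ n, f.totalDegree ≤ n → aeval z (homogeneousComponent n f) = 0) → z = 0) :
    {z : Fin m → ℂ | ∀ f ∈ 𝔞, aeval z f = 0}.Finite := by
  have hmap : ∀ (z : Fin m → ℂ) (f : MvPolynomial (Fin m) ℤ),
      aeval z (MvPolynomial.map (Int.castRingHom ℂ) f) = aeval z f := by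
    intro z f
    rw [aeval_def, eval₂_map, aeval_def]
    congr 1
  have h1 := finite_zeros (𝔞.map (MvPolynomial.map (Int.castRingHom ℂ))) (finite_quot _ fun z hz => h z fun f hf n hn => by
    have h2 := hz _ (Ideal.mem_map_of_mem _ hf) n (by
      refine le_trans ?_ hn
      exact Finset.sup_mono (support_map_subset _ _))
    have h3 : homogeneousComponent n (MvPolynomial.map (Int.castRingHom ℂ) f) =
        MvPolynomial.map (Int.castRingHom ℂ) (homogeneousComponent n f) := by
      refine MvPolynomial.ext _ _ fun s => ?_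
      rw [coeff_homogeneousComponent, coeff_map, coeff_map, coeff_homogeneousComponent]
      split_ifs
      · rfl
      · exact (map_zero _).symm
    rwa [h3, hmap] at h2)
  refine h1.subset fun z hz => ?_
  have h4 : 𝔞.map (MvPolynomial.map (Int.castRingHom ℂ)) ≤ RingHom.ker (aeval z : MvPolynomial (Fin m) ℂ →ₐ[ℂ] ℂ) := by
    rw [Ideal.map_le_iff_le_comap]
    intro f hf
    rw [Ideal.mem_comap, RingHom.mem_ker]
    rw [hmap]
    exact hz f hf
  intro f hf
  exact h4 hf

end Pool.Agent.H446.AP15
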