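import Pool.Agent.H446.AP15.C4
import Pool.Agent.H446.AP11.GenM

/-!
# Connections over differential rings: nilpotence on the asymptotic cone
-/

set_option autoImplicit false

namespace Pool.Agent.H446.AP15

open Finset MvPolynomial TensorProduct
open Pool.Agent.H446.AP4 (dR Phi Phi_tmul map_curv curv curv_succ)
open Pool.Agent.H446.AP10 (Non)
open Pool.Agent.H446.AP11 (mapD coeff_mapD evM mz evM_eq_sum support_mapD curv_degree pow_degree lowM lowM_coeff
  Phi_evM sepT FM totalDegree_le_of_support)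

variable {𝒪 : Type*} [CommRing 𝒪] {m r : ℕ}

/-- The terms of degree `n` of the entries. -/
noncomputable def topM (n : ℕ) (B : Matrix (Fin r) (Fin r) (MvPolynomial (Fin m) 𝒪)) :
    Matrix (Fin r) (Fin r) (MvPolynomial (Fin m) 𝒪) := B.map fun f => homogeneousComponent n f

lemma hc_one : homogeneousComponent 0 (1 : MvPolynomial (Fin m) 𝒪) = 1 := by
  have h1 : (1 : MvPolynomial (Fin m) 𝒪).IsHomogeneous 0 := isHomogeneous_one _ _
  rw [homogeneousComponent_of_mem h1, if_pos rfl]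

lemma topM_curv (δ : Derivation ℤ 𝒪 𝒪) {Δ : MvPolynomial (Fin m) 𝒪} {B : Matrix (Fin r) (Fin r) (MvPolynomial (Fin m) 𝒪)}
    {D : ℕ} (hΔ : Δ.totalDegree ≤ D) (hB : ∀ i j, (B i j).totalDegree ≤ D + 1) (k : ℕ) :
    topM ((D + 1) * k) (curv (mapD δ) Δ B k) = topM (D + 1) B ^ k := by
  induction k with
  | zero =>
    refine Matrix.ext fun i j => ?_
    show homogeneousComponent ((D + 1) * 0) ((1 : Matrix (Fin r) (Fin r) (MvPolynomial (Fin m) 𝒪)) i j) = _
    rw [pow_zero, mul_zero, Matrix.one_apply]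
    split_ifs
    · exact hc_one
    · exact map_zero _
  | succ k ih =>
    refine Matrix.ext fun i j => ?_
    show homogeneousComponent ((D + 1) * (k + 1)) (curv (mapD δ) Δ B (k + 1) i j) = _
    have hT := curv_degree δ (Δ := Δ) (B := B) (D := D + 1) (by omega) hB k
    have hD : ∀ F : MvPolynomial (Fin m) 𝒪, (mapD δ F).totalDegree ≤ F.totalDegree := fun F =>
      totalDegree_le_of_support (support_mapD δ F)
    have hn : ((k : MvPolynomial (Fin m) 𝒪)).totalDegree = 0 := by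
      have h : (k : MvPolynomial (Fin m) 𝒪) = C (k : 𝒪) := by rw [map_natCast]
      rw [h, totalDegree_C]
    have h1 : homogeneousComponent ((D + 1) * (k + 1)) (Δ * mapD δ (curv (mapD δ) Δ B k i j)) = 0 := by
      refine homogeneousComponent_eq_zero _ _ ?_
      have h2 := totalDegree_mul Δ (mapD δ (curv (mapD δ) Δ B k i j))
      have h3 := (hD (curv (mapD δ) Δ B k i j)).trans (hT i j)
      rw [Nat.mul_succ]
      omega
    have h2 : homogeneousComponent ((D + 1) * (k + 1)) ((k : MvPolynomial (Fin m) 𝒪) * mapD δ Δ * curv (mapD δ) Δ B k i j) = 0 := by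
      refine homogeneousComponent_eq_zero _ _ ?_
      have h3 := totalDegree_mul ((k : MvPolynomial (Fin m) 𝒪) * mapD δ Δ) (curv (mapD δ) Δ B k i j)
      have h4 := totalDegree_mul (k : MvPolynomial (Fin m) 𝒪) (mapD δ Δ)
      rw [hn] at h4
      have h5 := hD Δ
      have h6 := hT i j
      rw [Nat.mul_succ]
      omega
    have h3 : (D + 1) * (k + 1) = (D + 1) + (D + 1) * k := by ring
    rw [curv_succ, map_add, map_sub, h1, h2, sub_zero, zero_add, Matrix.mul_apply, map_sum, pow_succ', Matrix.mul_apply]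
    refine Finset.sum_congr rfl fun l _ => ?_
    rw [h3, hc_mul_top (hB i l) (hT l j), ← ih]
    rfl

lemma topM_pow {D : ℕ} {M : Matrix (Fin r) (Fin r) (MvPolynomial (Fin m) 𝒪)} (hM : ∀ i j, (M i j).totalDegree ≤ D) (q : ℕ) :
    topM (D * q) (M ^ q) = topM D M ^ q := by
  induction q with
  | zero =>
    refine Matrix.ext fun i j => ?_
    show homogeneousComponent (D * 0) ((M ^ 0) i j) = _
    rw [pow_zero, pow_zero, mul_zero, Matrix.one_apply]
    split_ifs
    · exact hc_one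
    · exact map_zero _
  | succ q ih =>
    refine Matrix.ext fun i j => ?_
    show homogeneousComponent (D * (q + 1)) ((M ^ (q + 1)) i j) = _
    rw [pow_succ, pow_succ, Matrix.mul_apply, Matrix.mul_apply, map_sum]
    refine Finset.sum_congr rfl fun l _ => ?_
    rw [mul_add, mul_one, hc_mul_top (pow_degree hM q i l) (hM l j), ← ih]
    rfl

lemma topM_curv_pow (δ : Derivation ℤ 𝒪 𝒪) {Δ : MvPolynomial (Fin m) 𝒪}
    {B : Matrix (Fin r) (Fin r) (MvPolynomial (Fin m) 𝒪)} {D : ℕ} (hΔ : Δ.totalDegree ≤ D)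
    (hB : ∀ i j, (B i j).totalDegree ≤ D + 1) (p q : ℕ) :
    topM ((D + 1) * p * q) (curv (mapD δ) Δ B p ^ q) = topM (D + 1) B ^ (p * q) := by
  rw [topM_pow (curv_degree δ (Δ := Δ) (B := B) (D := D + 1) (by omega) hB p) q, topM_curv δ hΔ hB p, pow_mul]

lemma hc_lowM (p n : ℕ) (lam : 𝒪 →ₗ[ℤ] ZMod p) (F : MvPolynomial (Fin m) 𝒪) :
    homogeneousComponent n (lowM p lam F) = lowM p lam (homogeneousComponent n F) := by
  refine MvPolynomial.ext _ _ fun a => ?_
  rw [coeff_homogeneousComponent, lowM_coeff, lowM_coeff, coeff_homogeneousComponent]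
  split_ifs
  · rfl
  · rw [map_zero, ZMod.val_zero, Nat.cast_zero]

/-- The value of a matrix. -/
noncomputable def vM {R : Type*} [CommRing R] (y : Fin m → R) (M : Matrix (Fin r) (Fin r) (MvPolynomial (Fin m) 𝒪)) :
    Matrix (Fin r) (Fin r) (𝒪 ⊗[ℤ] R) := M.map (evM y)

lemma vM_pow {R : Type*} [CommRing R] (y : Fin m → R) (M : Matrix (Fin r) (Fin r) (MvPolynomial (Fin m) 𝒪)) (n : ℕ) :
    vM y M ^ n = vM y (M ^ n) := (map_pow (evM y).mapMatrix _ n).symm

lemma charpoly_vM {R : Type*} [CommRing R] (y : Fin m → R) (M : Matrix (Fin r) (Fin r) (MvPolynomial (Fin m) 𝒪)) (j : ℕ) :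
    ((vM y M).charpoly - Polynomial.X ^ r).coeff j = evM y ((M.charpoly - Polynomial.X ^ r).coeff j) := by
  have h1 : (vM y M).charpoly - Polynomial.X ^ r = (M.charpoly - Polynomial.X ^ r).map (evM y) := by
    rw [Polynomial.map_sub, Polynomial.map_pow, Polynomial.map_X]
    congr 1
    exact Matrix.charpoly_map _ _
  rw [h1, Polynomial.coeff_map]

/-! ### Coordinates -/

/-- The functional applied to the coefficients. -/
noncomputable def lowZ (lam : 𝒪 →ₗ[ℤ] ℤ) (F : MvPolynomial (Fin m) 𝒪) : MvPolynomial (Fin m) ℤ :=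
  ∑ a ∈ F.support, monomial a (lam (F.coeff a))

/-- The coordinates of the values. -/
lemma coord_evM {ι : Type*} [DecidableEq ι] (b : Module.Basis ι ℤ 𝒪) {R : Type*} [CommRing R] (z : Fin m → R)
    (F : MvPolynomial (Fin m) 𝒪) (i : ι) :
    TensorProduct.equivFinsuppOfBasisLeft b (evM z F) i = aeval z (lowZ (b.coord i) F) := by
  rw [evM_eq_sum z F (Finset.Subset.refl _), lowZ, map_sum, map_sum, Finsupp.finsetSum_apply]
  refine Finset.sum_congr rfl fun a _ => ?_
  rw [TensorProduct.equivFinsuppOfBasisLeft_apply_tmul_apply, aeval_monomial, zsmul_eq_mul, algebraMap_int_eq,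
    eq_intCast]
  rfl

/-- **If the matrix at infinity is not nilpotent at some point of the asymptotic cone, almost all primes are exceptional.** -/
theorem all_exceptionalM [Module.Free ℤ 𝒪] {N₁ : ℕ} (hN₁ : 0 < N₁)
    (hred : ∀ (k : Type) [Field k] (p : ℕ) [CharP k p], p.Prime → ¬ p ∣ N₁ → IsReduced (𝒪 ⊗[ℤ] k))
    {n : ℕ} (δ : Fin n → Derivation ℤ 𝒪 𝒪) {Δ : MvPolynomial (Fin m) 𝒪}
    {B : Fin n → Matrix (Fin r) (Fin r) (MvPolynomial (Fin m) 𝒪)} {D : ℕ} (hΔ : Δ.totalDegree ≤ D)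
    (hB : ∀ s i j, (B s i j).totalDegree ≤ D + 1) {q : ℕ} {𝔞 : Ideal (MvPolynomial (Fin m) ℤ)} (h𝔞 : 𝔞.IsPrime)
    {g : MvPolynomial (Fin m) ℤ} (hg : g ∉ 𝔞) {z : Fin m → ℂ}
    (hz : ∀ f ∈ 𝔞, ∀ n, f.totalDegree ≤ n → aeval z (homogeneousComponent n f) = 0) (s : Fin n)
    (hnil : ¬ IsNilpotent (vM z (topM (D + 1) (B s)))) :
    ∃ N : ℕ, 0 < N ∧ ∀ p : ℕ, p.Prime → ¬ p ∣ N → Non (FM δ Δ B q) 𝔞 g p := by
  classical
  let b := Module.Free.chooseBasis ℤ 𝒪
  obtain ⟨j, hj⟩ : ∃ j, evM z (((topM (D + 1) (B s)).charpoly - Polynomial.X ^ r).coeff j) ≠ 0 := by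
    by_contra h
    push Not at h
    refine hnil ⟨r, ?_⟩
    have h1 : (vM z (topM (D + 1) (B s))).charpoly - Polynomial.X ^ r = 0 := by
      refine Polynomial.ext fun j => ?_
      rw [charpoly_vM, h, Polynomial.coeff_zero]
    have h2 := Matrix.aeval_self_charpoly (vM z (topM (D + 1) (B s)))
    rw [sub_eq_zero.1 h1, map_pow, Polynomial.aeval_X] at h2
    exact h2
  obtain ⟨P, hP⟩ : ∃ P, P = ((topM (D + 1) (B s)).charpoly - Polynomial.X ^ r).coeff j := ⟨_, rfl⟩
  rw [← hP] at hj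
  obtain ⟨i, hi⟩ : ∃ i, aeval z (lowZ (b.coord i) P) ≠ 0 := by
    by_contra h
    push Not at h
    refine hj ((TensorProduct.equivFinsuppOfBasisLeft (N := ℂ) b).injective (Finsupp.ext fun i => ?_))
    rw [coord_evM, h, map_zero, Finsupp.zero_apply]
  obtain ⟨N, hN, hcone⟩ := cone (𝓕 := FM δ Δ B q) h𝔞 hg hz hi
  refine ⟨N * N₁, by positivity, fun p hp hpN => ?_⟩
  by_contra hnon
  obtain ⟨k, i1, i2, y, hyc, hF⟩ := hcone p hp (fun h => hpN (h.mul_right _)) hnon
  have hfact : Fact p.Prime := ⟨hp⟩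
  have hrk : IsReduced (𝒪 ⊗[ℤ] k) := hred k p hp fun h => hpN (h.mul_left _)
  have h1 : vM y (topM (D + 1) (B s)) ^ (p * q) = 0 := by
    rw [vM_pow, ← topM_curv_pow (δ s) hΔ (hB s) p q]
    refine Matrix.ext fun a c => ?_
    refine sepT _ fun lam => ?_
    show Phi p lam k (evM y (homogeneousComponent ((D + 1) * p * q) ((curv (mapD (δ s)) Δ (B s) p ^ q) a c))) = 0
    rw [Phi_evM, ← hc_lowM]
    exact hF _ ⟨lam, s, a, c, rfl⟩ _ ((totalDegree_le_of_support (Pool.Agent.H446.AP11.support_lowM p lam _)).trans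
      (pow_degree (curv_degree (δ s) (Δ := Δ) (B := B s) (D := D + 1) (by omega) (hB s) p) q a c))
  have h2 := Matrix.isNilpotent_charpoly_sub_pow_of_isNilpotent (M := vM y (topM (D + 1) (B s))) ⟨_, h1⟩
  rw [Fintype.card_fin, Polynomial.isNilpotent_iff] at h2
  have h3 := (h2 j).eq_zero
  rw [charpoly_vM, ← hP] at h3
  refine hyc ?_
  rw [← coord_evM, h3, map_zero, Finsupp.zero_apply]

end Pool.Agent.H446.AP15
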