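import Pool.Agent.H446.AP15.C5

/-!
# Sums over the primes
-/

set_option autoImplicit false

namespace Pool.Agent.H446.AP15

open Finset

/-- The sum of `log p / p` over the primes that do not divide `N` is infinite. -/
theorem mertens_absurd {N : ℕ} (hN : 0 < N) {C : ℝ}
    (hC : ∀ Q : Finset ℕ, (∀ p ∈ Q, p.Prime ∧ ¬ p ∣ N) → ∑ p ∈ Q, Real.log p / p ≤ C) : False := by
  classical
  obtain ⟨c₀, hc₀, hM⟩ := Pool.Agent.H446.AP.mertens
  set S : ℝ := ∑ p ∈ N.divisors, Real.log p / p with hS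
  set x : ℝ := Real.exp (|C| + |S| + c₀ + 1) with hx
  have hx1 : 1 ≤ x := by
    rw [hx]
    exact Real.one_le_exp (by positivity)
  have h1 := (hM x hx1).1
  have h2 : Real.log x = |C| + |S| + c₀ + 1 := by rw [hx, Real.log_exp]
  have h3 : ∑ p ∈ Pool.Agent.H446.AP.pr x, Real.log p / p ≤ C + S := by
    rw [← Finset.sum_filter_add_sum_filter_not (s := Pool.Agent.H446.AP.pr x) (fun p => ¬ p ∣ N)]
    refine add_le_add (hC _ fun p hp => ?_) (Finset.sum_le_sum_of_subset_of_nonneg (fun p hp => ?_) fun p _ _ =>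
      div_nonneg (Real.log_natCast_nonneg p) (Nat.cast_nonneg p))
    · rw [mem_filter] at hp
      have h4 : p.Prime := ((Pool.Agent.H446.AP.mem_pr (by linarith)).1 hp.1).1
      exact ⟨h4, hp.2⟩
    · rw [mem_filter, not_not] at hp
      rw [Nat.mem_divisors]
      exact ⟨hp.2, hN.ne'⟩
  have h4 := le_abs_self C
  have h5 := le_abs_self S
  linarith

/-- Only finitely many primes divide a polynomial. -/
lemma exists_dvd_bound {m : ℕ} {g : MvPolynomial (Fin m) ℤ} (hg : g ≠ 0) :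
    ∃ e : ℕ, 0 < e ∧ ∀ p : ℕ, ((p : ℕ) : MvPolynomial (Fin m) ℤ) ∣ g → p ∣ e := by
  obtain ⟨a, ha⟩ := MvPolynomial.ne_zero_iff.1 hg
  refine ⟨(g.coeff a).natAbs, Int.natAbs_pos.2 ha, fun p hp => ?_⟩
  have h1 : (MvPolynomial.C ((p : ℕ) : ℤ) : MvPolynomial (Fin m) ℤ) = ((p : ℕ) : MvPolynomial (Fin m) ℤ) := by
    rw [map_natCast]
  rw [← h1, MvPolynomial.C_dvd_iff_dvd_coeff] at hp
  exact Int.natCast_dvd.1 (hp a)

end Pool.Agent.H446.AP15
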