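import Pool.Agent.H446.AP15.C6

/-!
# Almost all primes are exceptional if the family is not nilpotent at infinity
-/

set_option autoImplicit false

namespace Pool.Agent.H446.AP15

open Finset Polynomial
open Pool.Agent.H446.AP10 (TD FF Non TD_curv TD_pow)

variable {m r : ℕ}

/-- If the matrix at infinity is not nilpotent at some point of the asymptotic cone, almost all primes are exceptional. -/
theorem all_exceptional {D : ℕ} {Δ : (MvPolynomial (Fin m) ℤ)[X]}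
    {B : Matrix (Fin r) (Fin r) (MvPolynomial (Fin m) ℤ)[X]}
    (hΔ : TD D Δ) (hB : ∀ i j, TD (D + 1) (B i j)) {q : ℕ} {𝔞 : Ideal (MvPolynomial (Fin m) ℤ)} (h𝔞 : 𝔞.IsPrime)
    {g : MvPolynomial (Fin m) ℤ} (hg : g ∉ 𝔞) {z : Fin m → ℂ}
    (hz : ∀ f ∈ 𝔞, ∀ n, f.totalDegree ≤ n → MvPolynomial.aeval z (MvPolynomial.homogeneousComponent n f) = 0)
    (hnil : ¬ IsNilpotent (vl z (B.map (hx (D + 1))))) :
    ∃ N : ℕ, 0 < N ∧ ∀ p : ℕ, p.Prime → ¬ p ∣ N → Non (FF Δ B q) 𝔞 g p := by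
  classical
  obtain ⟨j, l, hc⟩ : ∃ j l, MvPolynomial.aeval z ((((B.map (hx (D + 1))).charpoly - X ^ r).coeff j).coeff l) ≠ 0 := by
    by_contra h
    push Not at h
    refine hnil ⟨r, ?_⟩
    have h1 : (vl z (B.map (hx (D + 1)))).charpoly - X ^ r = 0 := by
      refine Polynomial.ext fun j => Polynomial.ext fun l => ?_
      rw [charpoly_vl, h]
      rfl
    have h2 := Matrix.aeval_self_charpoly (vl z (B.map (hx (D + 1))))
    rw [sub_eq_zero.1 h1, map_pow, aeval_X] at h2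
    exact h2
  obtain ⟨N, hN, hcone⟩ := cone (𝓕 := FF Δ B q) h𝔞 hg hz hc
  refine ⟨N, hN, fun p hp hpN => ?_⟩
  by_contra hnon
  obtain ⟨k, i1, i2, y, hyc, hF⟩ := hcone p hp hpN hnon
  have h1 : vl y (B.map (hx (D + 1))) ^ (p * q) = 0 := by
    refine Matrix.ext fun i j => Polynomial.ext fun l => ?_
    rw [vl_pow, coeff_vl, ← hx_curv_pow hΔ hB p q i j, coeff_hx]
    exact hF _ ⟨i, j, l, rfl⟩ _ (TD_pow (TD_curv (hΔ.mono (Nat.le_add_right D 1)) hB p) q i j l)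
  have h2 := Matrix.isNilpotent_charpoly_sub_pow_of_isNilpotent (M := vl y (B.map (hx (D + 1)))) ⟨_, h1⟩
  rw [Fintype.card_fin] at h2
  have h3 := h2.eq_zero
  refine hyc ?_
  rw [← charpoly_vl, h3]
  rfl

/-- The sums of `log p / p` over the primes that do not divide `d`. -/
theorem mertens_lower {d : ℕ} (hd : 0 < d) : ∃ c : ℝ, 0 ≤ c ∧ ∀ N : ℕ, 1 ≤ N →
    Real.log N - c ≤ ∑ p ∈ (Icc 1 N).filter (fun p : ℕ => p.Prime ∧ ¬ p ∣ d), Real.log p / p := by
  classical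
  obtain ⟨c₀, hc₀, hM⟩ := Pool.Agent.H446.AP.mertens
  refine ⟨c₀ + ∑ p ∈ d.divisors, Real.log p / p, add_nonneg hc₀ (Finset.sum_nonneg fun p _ =>
    div_nonneg (Real.log_natCast_nonneg p) (Nat.cast_nonneg p)), fun N hN => ?_⟩
  have h1 := (hM N (by exact_mod_cast hN)).1
  have h3 : ∑ p ∈ Pool.Agent.H446.AP.pr (N : ℝ), Real.log p / p ≤
      ∑ p ∈ (Icc 1 N).filter (fun p : ℕ => p.Prime ∧ ¬ p ∣ d), Real.log p / p + ∑ p ∈ d.divisors, Real.log p / p := by
    rw [← Finset.sum_filter_add_sum_filter_not (s := Pool.Agent.H446.AP.pr (N : ℝ)) (fun p => ¬ p ∣ d)]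
    refine add_le_add (Finset.sum_le_sum_of_subset_of_nonneg (fun p hp => ?_) fun p _ _ =>
      div_nonneg (Real.log_natCast_nonneg p) (Nat.cast_nonneg p))
      (Finset.sum_le_sum_of_subset_of_nonneg (fun p hp => ?_) fun p _ _ =>
      div_nonneg (Real.log_natCast_nonneg p) (Nat.cast_nonneg p))
    · rw [mem_filter] at hp
      obtain ⟨h4, h5⟩ := (Pool.Agent.H446.AP.mem_pr (Nat.cast_nonneg N)).1 hp.1
      rw [mem_filter, mem_Icc]
      exact ⟨⟨h4.one_lt.le, by exact_mod_cast h5⟩, h4, hp.2⟩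
    · rw [mem_filter, not_not] at hp
      rw [Nat.mem_divisors]
      exact ⟨hp.2, hd.ne'⟩
  linarith

end Pool.Agent.H446.AP15
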